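import Pool.Agent.Lib.MP_4ddb19_al.Even

/-!
# MP_4ddb19_al: the wide subgroups of `PSL_2(q)`, `q` even

`minIndex X` is `n(X)`, `InS A` says that `A` belongs to the set S(G) of the problem, and
`IsWide A` says that `A` is wide in `G` (file `Lib/MP_4ddb19_al/Defs.lean`). The proof is in
`Lib/MP_4ddb19_al/Even.lean`.
-/

namespace Pool.Agent.Results.MP_4ddb19_al.EvenPSL2

open Subgroup MulAction Pool.Agent.MP_4ddb19_al Pool.Agent.MP_4ddb19_al.Even
open scoped MatrixGroups LinearAlgebra.Projectivization Pointwise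

/-- The number of Sylow `p`-subgroups of `X`. -/
noncomputable def numSylow (p : ℕ) (X : Type) [Group X] : ℕ := Nat.card (Sylow p X)

/-- (1) Two different wide subgroups generate `G`. -/
def WideGenerate (G : Type) [Group G] : Prop :=
  ∀ A B : Subgroup G, IsWide A → IsWide B → A ≠ B → A ⊔ B = ⊤

/-- (2a) Subgroups of order `n(G)` are in S(G), and every other member `A` of S(G) has `s` Sylow
`n(G)`-subgroups with `s ≡ 1` modulo `n(G)`, `s ∣ |A|` and `1 < s < N`, where `N` is the number
of those of `G`. -/
def PrimeMembers (G : Type) [Group G] : Prop :=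
  (∀ A : Subgroup G, Nat.card A = minIndex G → InS A) ∧
    ∀ A : Subgroup G, InS A → Nat.card A ≠ minIndex G →
      numSylow (minIndex G) A ≡ 1 [MOD minIndex G] ∧ numSylow (minIndex G) A ∣ Nat.card A ∧
        1 < numSylow (minIndex G) A ∧ numSylow (minIndex G) A < numSylow (minIndex G) G

/-- (2b) If no divisor `d` of `|G|` has `d ≡ 1` modulo `n(G)` and `1 < d < N`, the wide subgroups
are the subgroups of order `n(G)`. -/
def PrimeCriterion (G : Type) [Group G] : Prop :=
  (∀ d : ℕ, d ∣ Nat.card G → d ≡ 1 [MOD minIndex G] → 1 < d → ¬ d < numSylow (minIndex G) G) →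
    ∀ A : Subgroup G, IsWide A ↔ Nat.card A = minIndex G

/-- (3) `n(PSL_2(F)) = |F| + 1`; if `|F| + 1` is not prime, S(PSL_2(F)) is empty, so there are no
wide subgroups; if `|F| + 1` is prime, the members of S(PSL_2(F)) and the wide subgroups are both
exactly the subgroups of order `|F| + 1`, these exist and any two of them are conjugate. -/
def EvenAnswer (F : Type) [Field F] : Prop :=
  minIndex PSL(2, F) = Nat.card F + 1 ∧
    (¬ (Nat.card F + 1).Prime → ∀ A : Subgroup PSL(2, F), ¬ InS A ∧ ¬ IsWide A) ∧
    ((Nat.card F + 1).Prime →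
      (∀ A : Subgroup PSL(2, F), (InS A ↔ Nat.card A = Nat.card F + 1) ∧
        (IsWide A ↔ Nat.card A = Nat.card F + 1)) ∧
      (∃ A : Subgroup PSL(2, F), Nat.card A = Nat.card F + 1) ∧
      ∀ A B : Subgroup PSL(2, F), Nat.card A = Nat.card F + 1 → Nat.card B = Nat.card F + 1 →
        ∃ g : PSL(2, F), B = MulAut.conj g • A)

/-- (1) Two different wide subgroups of a finite simple group `G` generate `G`. (2) If `n(G) = p`
is prime and `|G| ≠ p`, the subgroups of order `p` belong to S(G), every other member `A` of S(G)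
has more than one and fewer than all subgroups of order `p`, and if `|G|` has no divisor `d ≡ 1`
modulo `p` with `1 < d <` the number of Sylow `p`-subgroups of `G`, the wide subgroups are exactly
the subgroups of order `p`. (3) For every finite field `F` of characteristic 2 with `|F| ≥ 4`,
`n(PSL_2(F)) = |F| + 1`, and the wide subgroups of `PSL_2(F)` are its subgroups of order
`|F| + 1` if `|F| + 1` is prime (they exist and are conjugate), and there are none otherwise. -/
theorem result :
    (∀ (G : Type) [Group G] [Finite G] [IsSimpleGroup G], WideGenerate G ∧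
      ((minIndex G).Prime → Nat.card G ≠ minIndex G → PrimeMembers G ∧ PrimeCriterion G)) ∧
    ∀ (F : Type) [Field F] [Finite F] [CharP F 2], 4 ≤ Nat.card F → EvenAnswer F := by
  refine ⟨fun G _ _ _ => ⟨fun _ _ => sup_eq_top, fun hp hG =>
    ⟨⟨fun _ => inS_of_card hp hG, fun A hA hne => ?_⟩, fun hc A => (criterion hp hG hc A).2⟩⟩,
    fun F _ _ _ hF => ⟨even_min hF, fun hp A => ?_, fun hp => ?_⟩⟩
  · obtain ⟨h1, h2, h3, h4⟩ := sylow_count hp hA hne
    exact ⟨h2, h4, h1, h3⟩
  · have h1 : ¬ InS A := fun hA => hp (even_member hF hA).2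
    exact ⟨h1, fun hA => h1 hA.1⟩
  · obtain ⟨_, h2, h3, h4⟩ := psl hF hp
    exact ⟨h4, h2, h3⟩

end Pool.Agent.Results.MP_4ddb19_al.EvenPSL2
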