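import Pool.Agent.Lib.MP_4ddb19_al.Odd

/-!
# MP_4ddb19_al: `PSL_2(q)` has no wide subgroups for odd `q >= 13`

`minIndex X` is `n(X)`, `InS A` says that `A` belongs to the set S(G) of the problem, and
`IsWide A` says that `A` is wide in `G` (file `Lib/MP_4ddb19_al/Defs.lean`). The proof is in
`Lib/MP_4ddb19_al/Odd.lean`.
-/

namespace Pool.Agent.Results.MP_4ddb19_al.OddPSL2

open Subgroup MulAction Pool.Agent.MP_4ddb19_al Pool.Agent.MP_4ddb19_al.Odd
open scoped MatrixGroups LinearAlgebra.Projectivization Pointwise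

/-- `n(PSL_2(F)) = |F| + 1` and S(PSL_2(F)) is empty, so `PSL_2(F)` has no wide subgroup. -/
def NoWide (F : Type) [Field F] : Prop :=
  minIndex PSL(2, F) = Nat.card F + 1 ∧ ∀ A : Subgroup PSL(2, F), ¬ InS A ∧ ¬ IsWide A

/-- For every finite field `F` with `|F| ≥ 13` odd, `n(PSL_2(F)) = |F| + 1` and `PSL_2(F)` has no
wide subgroup; even S(PSL_2(F)) is empty. -/
theorem result (F : Type) [Field F] [Finite F] (hF : 13 ≤ Nat.card F) (hodd : Odd (Nat.card F)) :
    NoWide F := by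
  have h2 := Nat.odd_iff.1 hodd
  have h4 : Nat.card F % 4 = 1 ∨ Nat.card F % 4 = 3 := by omega
  rcases h4 with h4 | h4
  · obtain ⟨hmin, h⟩ := case1 hF h4
    exact ⟨hmin, fun A => ⟨h A, fun hA => h A hA.1⟩⟩
  · obtain ⟨hmin, h⟩ := case3 hF h4
    exact ⟨hmin, fun A => ⟨h A, fun hA => h A hA.1⟩⟩

end Pool.Agent.Results.MP_4ddb19_al.OddPSL2
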