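import Pool.Agent.Lib.MP_4ddb19_al_S.Crit
import Pool.Agent.Lib.MP_4ddb19_al_S.Idx
import Pool.Agent.Lib.MP_4ddb19_al_S.IdxNine
import Pool.Agent.Lib.MP_4ddb19_al_S.Nine
import Pool.Agent.Lib.MP_4ddb19_al_S.NoSixty
import Pool.Agent.Lib.MP_4ddb19_al_S.Tr

/-!
# MP_4ddb19_al: the wide subgroups of `PSL_2(q)` for `q = 5, 7, 11` and `q = 9`

`minIndex X` is `n(X)`, `InS A` says that `A` belongs to the set S(G) of the problem, and
`IsWide A` says that `A` is wide in `G` (file `Lib/MP_4ddb19_al/Defs.lean`). The proofs are in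
the files of `Lib/MP_4ddb19_al_S/`.
-/

namespace Pool.Agent.Results.MP_4ddb19_al.SmallPSL2

open Subgroup MulAction Pool.Agent.MP_4ddb19_al Pool.Agent.MP_4ddb19_al.Small
open scoped MatrixGroups LinearAlgebra.Projectivization Pointwise

/-- `n(PSL_2(F)) = |F|`; there are subgroups of order `|F|`, any two of them are conjugate, and
they are the members of S(PSL_2(F)) and also the wide subgroups of `PSL_2(F)`. -/
def PrimeAnswer (F : Type) [Field F] : Prop :=
  minIndex PSL(2, F) = Nat.card F ∧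
    (∃ A : Subgroup PSL(2, F), Nat.card A = Nat.card F) ∧
    (∀ A B : Subgroup PSL(2, F), Nat.card A = Nat.card F → Nat.card B = Nat.card F →
      ∃ g : PSL(2, F), B = MulAut.conj g • A) ∧
    ∀ A : Subgroup PSL(2, F), (InS A ↔ Nat.card A = Nat.card F) ∧
      (IsWide A ↔ Nat.card A = Nat.card F)

/-- `n(PSL_2(F)) = 6` and S(PSL_2(F)) is empty, so `PSL_2(F)` has no wide subgroup. -/
def NineAnswer (F : Type) [Field F] : Prop :=
  minIndex PSL(2, F) = 6 ∧ ∀ A : Subgroup PSL(2, F), ¬ InS A ∧ ¬ IsWide A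

/-- For a field `F` with 5, 7 or 11 elements the members of S(PSL_2(F)), and the wide subgroups
of `PSL_2(F)`, are the subgroups of order `|F|`; for a field with 9 elements there are none. -/
theorem result (F : Type) [Field F] [Finite F] :
    (Nat.card F = 5 ∨ Nat.card F = 7 ∨ Nat.card F = 11 → PrimeAnswer F) ∧
      (Nat.card F = 9 → NineAnswer F) := by
  have t5 : Fact (Nat.Prime 5) := ⟨by norm_num⟩
  have t7 : Fact (Nat.Prime 7) := ⟨by norm_num⟩
  have t11 : Fact (Nat.Prime 11) := ⟨by norm_num⟩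
  refine ⟨?_, ?_⟩
  · rintro (h | h | h)
    · exact psl_q (by omega) (by rw [h]; norm_num) (by rw [h]; exact transfer_zmod h idx5)
    · exact psl_q (by omega) (by rw [h]; norm_num) (by rw [h]; exact transfer_zmod h idx7)
    · exact psl_q (by omega) (by rw [h]; norm_num) (by rw [h]; exact transfer_zmod h idx11)
  · intro h
    obtain ⟨hmin, hA⟩ := nine h (idx9 F h) (fun A _ _ _ h1 h2 h3 h4 => no60 A h1 h2 h3 h4)
    exact ⟨hmin, fun A => ⟨hA A, fun hw => hA A hw.1⟩⟩

end Pool.Agent.Results.MP_4ddb19_al.SmallPSL2
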