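import Pool.Agent.Lib.MP_4ddb19_al.Main

/-!
# MP_4ddb19_al: the structure of the set S(G) and of the wide subgroups of a finite simple group

`minIndex X` is `n(X)`, `InS A` says that `A` belongs to the set S(G) of the problem, and
`IsWide A` says that `A` is wide in `G` (file `Lib/MP_4ddb19_al/Defs.lean`).

* Every member `A` of S(G) is simple, its centraliser in `G` is trivial or it is self-centralising
  of prime order `n(G)`, and for every subgroup `H` of index `n(G)` one has `G = A H` and `A ⊓ H`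
  is a maximal subgroup of `A`.
* Let `B` be a proper subgroup of `G` that contains a member of S(G). Then `B` has a smallest
  nontrivial normal subgroup `M`, it belongs to S(G), and it contains every member of S(G)
  contained in `B`.
* `A` is wide if and only if it belongs to S(G) and its normaliser is a maximal subgroup of `G`,
  the only one containing `A`.
-/

namespace Pool.Agent.Results.MP_4ddb19_al.WideStructure

open Subgroup MulAction Pool.Agent.MP_4ddb19_al

set_option linter.unusedSectionVars false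

variable {G : Type*} [Group G] [Finite G] [IsSimpleGroup G]

lemma exists_H : ∃ H : Subgroup G, H.index = minIndex G := by
  obtain ⟨Y, _, h⟩ := exists_minIndex (X := G)
  exact ⟨Y, h⟩

lemma normal_iff (B N : Subgroup G) :
    B ≤ normalizer (N : Set G) ↔ ∀ b ∈ B, ∀ x ∈ N, b * x * b⁻¹ ∈ N := by
  constructor
  · intro h b hb x hx
    exact (Subgroup.mem_normalizer_iff.mp (h hb) x).mp hx
  · intro h b hb
    rw [Subgroup.mem_normalizer_iff]
    intro x
    refine ⟨h b hb x, fun hx => ?_⟩
    have := h b⁻¹ (B.inv_mem hb) _ hx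
    have e : b⁻¹ * (b * x * b⁻¹) * b⁻¹⁻¹ = x := by group
    rwa [e] at this

lemma centralizer_cases (A : Subgroup G) (hA : InS A) :
    centralizer (A : Set G) = ⊥ ∨
      centralizer (A : Set G) = A ∧ (Nat.card A).Prime ∧ Nat.card A = minIndex G := by
  obtain ⟨H, hH⟩ := exists_H (G := G)
  set C := centralizer (A : Set G) with hC
  by_cases h : C = ⊥
  · exact Or.inl h
  right
  have hAC : A ≤ C := by
    have h1 : A ≤ normalizer (A : Set G) := Subgroup.le_normalizer
    have h2 : C ≤ normalizer (A : Set G) := by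
      rw [normal_iff]
      intro b hb x hx
      rw [hC, Subgroup.mem_centralizer_iff] at hb
      rw [← hb x hx, mul_inv_cancel_right]
      exact hx
    refine le_of_normal hA H hH (normalizer (A : Set G)) C h1 h2 ?_ h
    intro b hb x hx
    rw [hC, Subgroup.mem_centralizer_iff] at hx ⊢
    intro a ha
    have h3 : b⁻¹ * a * b ∈ A := by
      have := (Subgroup.mem_normalizer_iff.mp ((normalizer (A : Set G)).inv_mem hb) a).mp ha
      rwa [inv_inv] at this
    have h4 := hx _ h3
    calc a * (b * x * b⁻¹) = b * ((b⁻¹ * a * b) * x) * b⁻¹ := by group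
      _ = b * (x * (b⁻¹ * a * b)) * b⁻¹ := by rw [h4]
      _ = b * x * b⁻¹ * a := by group
  have hcomm : ∀ a ∈ A, ∀ b ∈ A, a * b = b * a := by
    intro a ha b hb
    have := hAC hb
    rw [hC, Subgroup.mem_centralizer_iff] at this
    exact this a ha
  have hsimp := isSimple hA H hH
  have : Nontrivial A := (Subgroup.nontrivial_iff_ne_bot A).mpr hA.1
  refine ⟨le_antisymm ?_ hAC, ?_, ?_⟩
  · -- the centraliser is not larger than `A`
    intro c hc
    have hf := faithful_of_ne_top H (ne_top_of_index H hH)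
    obtain ⟨a, ha, e⟩ := trans hA H hH ((1 : G) : G ⧸ H) (c • ((1 : G) : G ⧸ H))
    have hd : a⁻¹ * c ∈ C := C.mul_mem (C.inv_mem (hAC ha)) hc
    have hd1 : a⁻¹ * c = 1 := by
      apply FaithfulSMul.eq_of_smul_eq_smul (α := G ⧸ H)
      intro v
      obtain ⟨b, hb, rfl⟩ := trans hA H hH ((1 : G) : G ⧸ H) v
      rw [hC, Subgroup.mem_centralizer_iff] at hd
      rw [one_smul, ← mul_smul, ← hd b hb, mul_smul, mul_smul, ← e, inv_smul_smul]
    have : c = a := by
      rw [inv_mul_eq_one] at hd1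
      exact hd1.symm
    rw [this]
    exact ha
  · let _ : CommGroup A := { (inferInstance : Group A) with
      mul_comm := fun a b => Subtype.ext (hcomm a a.2 b b.2) }
    have : IsSimpleGroup A := hsimp
    exact IsSimpleGroup.prime_card
  · rw [← hA.2.2]
    obtain ⟨Y, hY, hYi⟩ := exists_minIndex (X := A)
    have hYn : Y.Normal := by
      constructor
      intro x hx b
      have : b * x * b⁻¹ = x := by
        apply Subtype.ext
        change (b : G) * x * (b : G)⁻¹ = x
        rw [hcomm b b.2 x x.2, mul_inv_cancel_right]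
      rwa [this]
    rcases hYn.eq_bot_or_eq_top with h1 | h1
    · rw [← hYi, h1, Subgroup.index_bot]
    · exact absurd h1 hY

theorem socle_largest (B : Subgroup G) (hB : B ≠ ⊤) (h : ∃ A, InS A ∧ A ≤ B) :
    ∃ M : Subgroup G, InS M ∧ M ≤ B ∧ B ≤ normalizer (M : Set G) ∧
      (∀ N : Subgroup G, N ≤ B → B ≤ normalizer (N : Set G) → N ≠ ⊥ → M ≤ N) ∧
      ∀ A : Subgroup G, InS A → A ≤ B → A ≤ M := by
  obtain ⟨H, hH⟩ := exists_H (G := G)
  obtain ⟨A, hA, hAB⟩ := h
  obtain ⟨M, hAM, hMB, hMn, hMmin, hMi⟩ := exists_socle hA H hH B hAB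
  have hM1 : M ≠ ⊥ := fun h => hA.1 (le_bot_iff.mp (h ▸ hAM))
  have hM2 : M ≠ ⊤ := fun h => hB (top_le_iff.mp (h ▸ hMB))
  refine ⟨M, ⟨hM1, hM2, hMi⟩, hMB, (normal_iff B M).mpr hMn, ?_, ?_⟩
  · intro N hNB hN hN1
    exact hMmin N hNB ((normal_iff B N).mp hN) hN1
  · intro A' hA' hAB'
    exact le_of_normal hA' H hH B M hAB' hMB hMn hM1

theorem wide_le_normalizer (A : Subgroup G) (hA : IsWide A) (B : Subgroup G) (hAB : A ≤ B)
    (hB : B ≠ ⊤) : B ≤ normalizer (A : Set G) := by
  obtain ⟨M, hM, hMB, hMn, _, hMl⟩ := socle_largest B hB ⟨A, hA.1, hAB⟩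
  have h1 : A ≤ M := hMl A hA.1 hAB
  have h2 : M ≤ A := hA.2 hM h1
  rwa [le_antisymm h2 h1] at hMn

theorem wide_iff (A : Subgroup G) :
    IsWide A ↔ InS A ∧ IsCoatom (normalizer (A : Set G)) ∧
      ∀ B : Subgroup G, IsCoatom B → A ≤ B → B = normalizer (A : Set G) := by
  constructor
  · intro hA
    have hne : normalizer (A : Set G) ≠ ⊤ := by
      intro h
      have hn : A.Normal := Subgroup.normalizer_eq_top_iff.mp h
      rcases hn.eq_bot_or_eq_top with h1 | h1
      · exact hA.1.1 h1
      · exact hA.1.2.1 h1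
    have hco : IsCoatom (normalizer (A : Set G)) := by
      refine ⟨hne, fun B hB => ?_⟩
      by_contra h
      have := wide_le_normalizer A hA B (Subgroup.le_normalizer.trans hB.le) h
      exact absurd (lt_of_lt_of_le hB this) (lt_irrefl _)
    refine ⟨hA.1, hco, fun B hB hAB => ?_⟩
    have h1 := wide_le_normalizer A hA B hAB hB.1
    by_contra h2
    exact hco.1 (hB.2 _ (lt_of_le_of_ne h1 h2))
  · rintro ⟨hA, _, huniq⟩
    refine ⟨hA, fun A' hA' hAA' => ?_⟩
    obtain ⟨H, hH⟩ := exists_H (G := G)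
    rcases IsCoatomic.eq_top_or_exists_le_coatom A' with h | ⟨B, hB, hB'⟩
    · exact absurd h hA'.2.1
    · have h1 := huniq B hB (hAA'.trans hB')
      refine le_of_normal hA' H hH A' A le_rfl hAA' ?_ hA.1
      rw [h1] at hB'
      exact (normal_iff A' A).mp hB'

theorem result {G : Type*} [Group G] [Finite G] [IsSimpleGroup G] :
    (∀ A : Subgroup G, InS A →
      IsSimpleGroup A ∧
      (centralizer (A : Set G) = ⊥ ∨
        centralizer (A : Set G) = A ∧ (Nat.card A).Prime ∧ Nat.card A = minIndex G) ∧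
      ∀ H : Subgroup G, H.index = minIndex G →
        (∀ g : G, ∃ a ∈ A, ∃ h ∈ H, a * h = g) ∧ A ⊓ H < A ∧
        ∀ K : Subgroup G, A ⊓ H ≤ K → K ≤ A → K = A ⊓ H ∨ K = A) ∧
    (∀ B : Subgroup G, B ≠ ⊤ → (∃ A : Subgroup G, InS A ∧ A ≤ B) →
      ∃ M : Subgroup G, InS M ∧ M ≤ B ∧ B ≤ normalizer (M : Set G) ∧
        (∀ N : Subgroup G, N ≤ B → B ≤ normalizer (N : Set G) → N ≠ ⊥ → M ≤ N) ∧
        ∀ A : Subgroup G, InS A → A ≤ B → A ≤ M) ∧
    (∀ A : Subgroup G, IsWide A ↔ InS A ∧ IsCoatom (normalizer (A : Set G)) ∧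
      ∀ B : Subgroup G, IsCoatom B → A ≤ B → B = normalizer (A : Set G)) := by
  refine ⟨fun A hA => ?_, fun B hB h => socle_largest B hB h, fun A => wide_iff A⟩
  obtain ⟨H0, hH0⟩ := exists_H (G := G)
  refine ⟨isSimple hA H0 hH0, centralizer_cases A hA, fun H hH => ⟨exists_mul hA H hH, ?_,
    fun K => primitive hA H hH K⟩⟩
  refine lt_of_le_of_ne inf_le_left fun h => not_le hA H hH ?_
  rw [← h]
  exact inf_le_right

end Pool.Agent.Results.MP_4ddb19_al.WideStructure
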